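import Mathlib

set_option autoImplicit false
set_option linter.unusedSectionVars false

namespace Pool.Agent.TH612.CR

open Set MeasureTheory

/-- replace the first `k` coordinates -/
def rep {N : ℕ → ℕ} (k : ℕ) (u v : ∀ k, Fin (N k)) : ∀ k, Fin (N k) :=
  fun i => if i < k then u i else v i

lemma rep_succ {N : ℕ → ℕ} (k : ℕ) (u v : ∀ k, Fin (N k)) :
    rep (k + 1) u v = Function.update (rep k u v) k (u k) := by
  funext i
  rcases eq_or_ne i k with rfl | h
  · simp [rep]
  · rw [Function.update_of_ne h]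
    unfold rep
    by_cases h1 : i < k
    · rw [if_pos h1, if_pos (by omega)]
    · rw [if_neg h1, if_neg (by omega)]

section
variable {X : Type} [MeasurableSpace X] [StandardBorelSpace X] (s : ℕ → X → X)
    (hs : ∀ n, Measurable (s n)) (hinv : ∀ n x, s n (s n x) = x) (E : X → X → Prop)
    (hE : Equivalence E) (hsE : ∀ x y, E x y ↔ ∃ n, s n x = y)
    (ν : Measure X) [IsProbabilityMeasure ν] (hν : ∀ n, ν.map (s n) = ν)
    (N : ℕ → ℕ) (X1 : Set X) (z : X → (ℕ → Bool)) (ω : X → (k : ℕ) → Fin (N k))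
    (hN : ∀ k, 2 ≤ N k) (hX1 : MeasurableSet X1) (hX1ν : ν X1ᶜ = 0)
    (hX1E : ∀ x y, E x y → x ∈ X1 → y ∈ X1) (hz : Measurable z) (hω : Measurable ω)
    (hzE : ∀ x y, E x y → z x = z y)
    (hinj : ∀ x ∈ X1, ∀ y ∈ X1, z x = z y → ω x = ω y → x = y)
    (hflip : ∀ x ∈ X1, ∀ (k : ℕ) (i : Fin (N k)),
      ∃ y ∈ X1, E x y ∧ ω y = Function.update (ω x) k i)

include hE hflip in
lemma exists_rep (k : ℕ) (u : ∀ k, Fin (N k)) (x : X) (hx : x ∈ X1) :
    ∃ y ∈ X1, E x y ∧ ω y = rep k u (ω x) := by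
  induction k with
  | zero => exact ⟨x, hx, hE.refl x, by funext i; simp [rep]⟩
  | succ k ih =>
    obtain ⟨y, hy, hxy, e⟩ := ih
    obtain ⟨y', hy', hyy', e'⟩ := hflip y hy k (u k)
    exact ⟨y', hy', hE.trans hxy hyy', by rw [e', e, rep_succ]⟩

/-- the cells -/
def cell (W : Set (ℕ → Bool)) (k : ℕ) (u : ∀ k, Fin (N k)) : Set X :=
  {x | x ∈ X1 ∧ z x ∈ W ∧ ∀ i, i < k → ω x i = u i}

include hX1 hz hω in
lemma meas_cell (W : Set (ℕ → Bool)) (hW : MeasurableSet W) (k : ℕ) (u : ∀ k, Fin (N k)) :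
    MeasurableSet (cell N X1 z ω W k u) := by
  have h : cell N X1 z ω W k u = X1 ∩ (z ⁻¹' W ∩ ⋂ i, ⋂ (_ : i < k), (fun x => ω x i) ⁻¹' {u i}) := by
    ext x
    simp only [cell, mem_ofPred_eq, mem_inter_iff, mem_preimage, mem_iInter, mem_singleton_iff]
  rw [h]
  refine hX1.inter ((hz hW).inter (MeasurableSet.iInter fun i => MeasurableSet.iInter fun _ => ?_))
  exact (measurable_pi_iff.1 hω i) (MeasurableSet.singleton _)

include hs hinv hE hsE hν hX1 hX1E hz hω hzE hinj hflip in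
lemma cell_le (W : Set (ℕ → Bool)) (hW : MeasurableSet W) (k : ℕ) (u u' : ∀ k, Fin (N k)) :
    ν (cell N X1 z ω W k u) ≤ ν (cell N X1 z ω W k u') := by
  set A : ℕ → Set X := fun n => {x | x ∈ cell N X1 z ω W k u ∧ ω (s n x) = rep k u' (ω x)} with hA
  have hAm : ∀ n, MeasurableSet (A n) := by
    intro n
    have : A n = cell N X1 z ω W k u ∩ ⋂ i, {x | ω (s n x) i = rep k u' (ω x) i} := by
      ext x
      simp only [hA, mem_ofPred_eq, mem_inter_iff, mem_iInter, funext_iff]
    rw [this]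
    refine (meas_cell N X1 z ω hX1 hz hω W hW k u).inter (MeasurableSet.iInter fun i => ?_)
    have h1 : Measurable fun x => ω (s n x) i := (measurable_pi_iff.1 hω i).comp (hs n)
    have h2 : Measurable fun x => rep k u' (ω x) i := by
      unfold rep
      by_cases h : i < k
      · simp only [h, if_true]
        exact measurable_const
      · simp only [h, if_false]
        exact measurable_pi_iff.1 hω i
    exact measurableSet_eq_fun h1 h2
  have hU : cell N X1 z ω W k u = ⋃ n, A n := by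
    ext x
    simp only [mem_iUnion, hA, mem_ofPred_eq]
    constructor
    · intro hx
      obtain ⟨y, hy, hxy, e⟩ := exists_rep E hE N X1 ω hflip k u' x hx.1
      obtain ⟨n, rfl⟩ := (hsE x y).1 hxy
      exact ⟨n, hx, e⟩
    · rintro ⟨n, hx, _⟩
      exact hx
  have hDsub : ∀ n, disjointed A n ⊆ A n := fun n => disjointed_subset A n
  have hDm : ∀ n, MeasurableSet (disjointed A n) := fun n => MeasurableSet.disjointed hAm n
  have hDd : Pairwise (Function.onFun Disjoint (disjointed A)) := disjoint_disjointed A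
  have hpre : ∀ n, ν (s n ⁻¹' disjointed A n) = ν (disjointed A n) := by
    intro n
    rw [← Measure.map_apply (hs n) (hDm n), hν n]
  have hExs : ∀ n x, E x (s n x) := fun n x => (hsE x _).2 ⟨n, rfl⟩
  have hsub : ∀ n, s n ⁻¹' disjointed A n ⊆ cell N X1 z ω W k u' := by
    intro n q hq
    have hq' := hDsub n hq
    have hEq := hExs n q
    obtain ⟨⟨h1, h2, h3⟩, h4⟩ := hq'
    rw [hinv] at h4
    refine ⟨hX1E _ _ (hE.symm hEq) h1, ?_, ?_⟩
    · rw [hzE _ _ hEq]; exact h2
    · intro i hi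
      rw [h4]; simp [rep, hi]
  have hdisj : Pairwise (Function.onFun Disjoint fun n => s n ⁻¹' disjointed A n) := by
    intro n m hnm
    rw [Function.onFun, Set.disjoint_left]
    intro q hq hq'
    have a1 := hDsub n hq
    have a2 := hDsub m hq'
    have hEq : E (s n q) (s m q) := hE.trans (hE.symm (hExs n q)) (hExs m q)
    have e1 := a1.2
    have e2 := a2.2
    rw [hinv] at e1 e2
    have e3 : ω (s n q) = ω (s m q) := by
      funext i
      by_cases hi : i < k
      · rw [a1.1.2.2 i hi, a2.1.2.2 i hi]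
      · have := congrFun (e1.symm.trans e2) i
        simpa [rep, hi] using this
    have e4 : s n q = s m q := hinj _ a1.1.1 _ a2.1.1 (hzE _ _ hEq) e3
    have hq'' : s n q ∈ disjointed A m := by rw [e4]; exact hq'
    exact (Set.disjoint_left.1 (hDd hnm)) hq hq''
  calc ν (cell N X1 z ω W k u) = ν (⋃ n, disjointed A n) := by rw [iUnion_disjointed, hU]
    _ = ∑' n, ν (disjointed A n) := measure_iUnion hDd hDm
    _ = ∑' n, ν (s n ⁻¹' disjointed A n) := by simp_rw [hpre]
    _ = ν (⋃ n, s n ⁻¹' disjointed A n) :=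
        (measure_iUnion hdisj fun n => (hs n) (hDm n)).symm
    _ ≤ ν (cell N X1 z ω W k u') := measure_mono (iUnion_subset hsub)

include hs hinv hE hsE hν hX1 hX1E hz hω hzE hinj hflip in
lemma cell_succ (W : Set (ℕ → Bool)) (hW : MeasurableSet W) (k : ℕ) (u : ∀ k, Fin (N k)) :
    ν (cell N X1 z ω W k u) = (N k : ENNReal) * ν (cell N X1 z ω W (k + 1) u) := by
  have h1 : cell N X1 z ω W k u =
      ⋃ j : Fin (N k), cell N X1 z ω W (k + 1) (Function.update u k j) := by
    ext x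
    simp only [cell, mem_iUnion, mem_ofPred_eq]
    constructor
    · rintro ⟨h1, h2, h3⟩
      refine ⟨ω x k, h1, h2, ?_⟩
      intro i hi
      rcases eq_or_ne i k with rfl | h
      · simp
      · rw [Function.update_of_ne h]
        exact h3 i (by omega)
    · rintro ⟨j, h1, h2, h3⟩
      refine ⟨h1, h2, ?_⟩
      intro i hi
      have := h3 i (by omega)
      rwa [Function.update_of_ne (by omega)] at this
  rw [h1, measure_iUnion]
  · rw [tsum_fintype]
    have : ∀ j : Fin (N k), ν (cell N X1 z ω W (k + 1) (Function.update u k j)) =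
        ν (cell N X1 z ω W (k + 1) u) := by
      intro j
      exact le_antisymm
        (cell_le s hs hinv E hE hsE ν hν N X1 z ω hX1 hX1E hz hω hzE hinj hflip W hW _ _ _)
        (cell_le s hs hinv E hE hsE ν hν N X1 z ω hX1 hX1E hz hω hzE hinj hflip W hW _ _ _)
    simp_rw [this]
    simp
  · intro j j' hj
    rw [Function.onFun, Set.disjoint_left]
    rintro x ⟨_, _, h3⟩ ⟨_, _, h3'⟩
    apply hj
    have a := h3 k (by omega)
    have b := h3' k (by omega)
    rw [Function.update_self] at a b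
    exact a.symm.trans b
  · intro j
    exact meas_cell N X1 z ω hX1 hz hω W hW _ _

include hs hinv hE hsE hν hX1 hX1E hz hω hzE hinj hflip in
lemma cell_prod (W : Set (ℕ → Bool)) (hW : MeasurableSet W) (k : ℕ) (u : ∀ k, Fin (N k)) :
    ν (cell N X1 z ω W 0 u) = (∏ i ∈ Finset.range k, (N i : ENNReal)) *
      ν (cell N X1 z ω W k u) := by
  induction k with
  | zero => simp
  | succ k ih =>
    rw [ih, Finset.prod_range_succ, mul_assoc,
      ← cell_succ s hs hinv E hE hsE ν hν N X1 z ω hX1 hX1E hz hω hzE hinj hflip W hW]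

end

/-- cylinders -/
def cyl {N : ℕ → ℕ} (k : ℕ) (u : ∀ k, Fin (N k)) : Set (∀ k, Fin (N k)) :=
  {x | ∀ i, i < k → x i = u i}

lemma cyl_generate (N : ℕ → ℕ) (hN : ∀ k, 2 ≤ N k) :
    MeasurableSpace.generateFrom {S | ∃ (k : ℕ) (u : ∀ k, Fin (N k)), S = cyl k u} =
      (MeasurableSpace.pi : MeasurableSpace (∀ k, Fin (N k))) := by
  apply le_antisymm
  · apply MeasurableSpace.generateFrom_le
    rintro S ⟨k, u, rfl⟩
    have : cyl k u = ⋂ i, ⋂ (_ : i < k), (fun x : ∀ k, Fin (N k) => x i) ⁻¹' {u i} := by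
      ext x
      simp [cyl]
    rw [this]
    exact MeasurableSet.iInter fun i => MeasurableSet.iInter fun _ =>
      (measurable_pi_apply i) (MeasurableSet.singleton _)
  · rw [MeasurableSpace.pi]
    refine iSup_le fun i => ?_
    rw [← measurable_iff_comap_le]
    let _ := MeasurableSpace.generateFrom {S | ∃ (k : ℕ) (u : ∀ k, Fin (N k)), S = cyl k u}
    refine measurable_to_countable' fun j => ?_
    let ext : (∀ m : Fin (i + 1), Fin (N m)) → ∀ k, Fin (N k) := fun p m =>
      if h : m < i + 1 then p ⟨m, h⟩ else ⟨0, by have := hN m; omega⟩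
    have : (fun x : ∀ k, Fin (N k) => x i) ⁻¹' {j} =
        ⋃ p : {p : (∀ m : Fin (i + 1), Fin (N m)) // p ⟨i, by omega⟩ = j}, cyl (i + 1) (ext p.1) := by
      ext x
      simp only [mem_preimage, mem_singleton_iff, mem_iUnion]
      constructor
      · intro hx
        refine ⟨⟨fun m => x m, hx⟩, ?_⟩
        intro m hm
        simp only [ext]
        rw [dif_pos hm]
      · rintro ⟨⟨p, hp⟩, hx⟩
        have := hx i (by omega)
        rw [this]
        simp only [ext]
        rw [dif_pos (by omega)]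
        exact hp
    rw [this]
    refine MeasurableSet.iUnion fun p => ?_
    exact MeasurableSpace.measurableSet_generateFrom ⟨_, _, rfl⟩

lemma cyl_pi (N : ℕ → ℕ) :
    IsPiSystem {S : Set (∀ k, Fin (N k)) | ∃ (k : ℕ) (u : ∀ k, Fin (N k)), S = cyl k u} := by
  rintro _ ⟨k, u, rfl⟩ _ ⟨k', u', rfl⟩ ⟨x, hx, hx'⟩
  refine ⟨max k k', x, ?_⟩
  ext y
  simp only [cyl, mem_inter_iff, mem_ofPred_eq]
  constructor
  · rintro ⟨h1, h2⟩ i hi
    rcases lt_max_iff.1 hi with h | h
    · rw [h1 i h, hx i h]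
    · rw [h2 i h, hx' i h]
  · intro h
    exact ⟨fun i hi => by rw [h i (lt_max_of_lt_left hi), hx i hi],
      fun i hi => by rw [h i (lt_max_of_lt_right hi), hx' i hi]⟩

theorem dye_prod {X : Type} [MeasurableSpace X] [StandardBorelSpace X] (s : ℕ → X → X)
    (hs : ∀ n, Measurable (s n)) (hinv : ∀ n x, s n (s n x) = x) (E : X → X → Prop)
    (hE : Equivalence E) (hsE : ∀ x y, E x y ↔ ∃ n, s n x = y)
    (ν : Measure X) [IsProbabilityMeasure ν] (hν : ∀ n, ν.map (s n) = ν)
    (N : ℕ → ℕ) (X1 : Set X) (z : X → (ℕ → Bool)) (ω : X → (k : ℕ) → Fin (N k))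
    (hN : ∀ k, 2 ≤ N k) (hX1 : MeasurableSet X1) (hX1ν : ν X1ᶜ = 0)
    (hX1E : ∀ x y, E x y → x ∈ X1 → y ∈ X1) (hz : Measurable z) (hω : Measurable ω)
    (hzE : ∀ x y, E x y → z x = z y)
    (hinj : ∀ x ∈ X1, ∀ y ∈ X1, z x = z y → ω x = ω y → x = y)
    (hflip : ∀ x ∈ X1, ∀ (k : ℕ) (i : Fin (N k)),
      ∃ y ∈ X1, E x y ∧ ω y = Function.update (ω x) k i) :
    (∀ (k : ℕ) (u : ∀ k, Fin (N k)),
      (ν.map ω) {x | ∀ i, i < k → x i = u i} = (∏ i ∈ Finset.range k, (N i : ENNReal))⁻¹) ∧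
    ν.map (fun x => (z x, ω x)) = (ν.map z).prod (ν.map ω) := by
  have hcyl : ∀ k (u : ∀ k, Fin (N k)), MeasurableSet (cyl k u) := by
    intro k u
    have := cyl_generate N hN
    rw [← this]
    exact MeasurableSpace.measurableSet_generateFrom ⟨_, _, rfl⟩
  have hconull : ∀ S : Set X, ν (X1 ∩ S) = ν S := by
    intro S
    apply le_antisymm (measure_mono inter_subset_right)
    calc ν S ≤ ν (X1 ∩ S ∪ X1ᶜ) := measure_mono (by
          intro x hx
          by_cases h : x ∈ X1
          · exact Or.inl ⟨h, hx⟩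
          · exact Or.inr h)
      _ ≤ ν (X1 ∩ S) + ν X1ᶜ := measure_union_le _ _
      _ = ν (X1 ∩ S) := by rw [hX1ν, add_zero]
  have hcell : ∀ W k (u : ∀ k, Fin (N k)), ν (cell N X1 z ω W k u) =
      ν (z ⁻¹' W ∩ ω ⁻¹' cyl k u) := by
    intro W k u
    rw [← hconull (z ⁻¹' W ∩ ω ⁻¹' cyl k u)]
    rfl
  have hP0 : ∀ k, (∏ i ∈ Finset.range k, (N i : ENNReal)) ≠ 0 := by
    intro k
    rw [Finset.prod_ne_zero_iff]
    intro i _
    have := hN i
    exact_mod_cast (by omega : N i ≠ 0)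
  have hPt : ∀ k, (∏ i ∈ Finset.range k, (N i : ENNReal)) ≠ ⊤ := by
    intro k
    exact ENNReal.prod_ne_top fun i _ => ENNReal.natCast_ne_top _
  have hmain : ∀ W, MeasurableSet W → ∀ k (u : ∀ k, Fin (N k)),
      ν (z ⁻¹' W ∩ ω ⁻¹' cyl k u) = (∏ i ∈ Finset.range k, (N i : ENNReal))⁻¹ * ν (z ⁻¹' W) := by
    intro W hW k u
    have h := cell_prod s hs hinv E hE hsE ν hν N X1 z ω hX1 hX1E hz hω hzE hinj hflip W hW k u
    rw [hcell, hcell] at h
    have h0 : ω ⁻¹' cyl 0 u = univ := by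
      ext x
      simp [cyl]
    rw [h0, inter_univ] at h
    rw [h, ← mul_assoc, ENNReal.inv_mul_cancel (hP0 k) (hPt k), one_mul]
  have hfirst : ∀ (k : ℕ) (u : ∀ k, Fin (N k)),
      (ν.map ω) {x | ∀ i, i < k → x i = u i} = (∏ i ∈ Finset.range k, (N i : ENNReal))⁻¹ := by
    intro k u
    have h := hmain univ MeasurableSet.univ k u
    rw [preimage_univ, univ_inter, measure_univ, mul_one] at h
    change (ν.map ω) (cyl k u) = _
    rw [Measure.map_apply hω (hcyl k u)]
    exact h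
  refine ⟨hfirst, ?_⟩
  have : IsProbabilityMeasure (ν.map z) := Measure.isProbabilityMeasure_map hz.aemeasurable
  have : IsProbabilityMeasure (ν.map ω) := Measure.isProbabilityMeasure_map hω.aemeasurable
  symm
  have hC : MeasurableSpace.generateFrom {S : Set (ℕ → Bool) | MeasurableSet S} =
      (MeasurableSpace.pi : MeasurableSpace (ℕ → Bool)) := MeasurableSpace.generateFrom_measurableSet
  refine Measure.prod_eq_generateFrom hC (cyl_generate N hN)
    MeasurableSpace.isPiSystem_measurableSet (cyl_pi N) ?_ ?_ ?_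
  · exact ⟨fun _ => univ, fun _ => by rw [mem_ofPred_eq]; exact MeasurableSet.univ,
      fun _ => measure_lt_top _ _, iUnion_const _⟩
  · refine ⟨fun _ => univ, fun _ => ⟨0, fun m => ⟨0, by have := hN m; omega⟩, ?_⟩,
      fun _ => measure_lt_top _ _, iUnion_const _⟩
    ext x
    simp [cyl]
  · rintro W hW0 _ ⟨k, u, rfl⟩
    have hW : MeasurableSet W := by rwa [mem_ofPred_eq] at hW0
    rw [Measure.map_apply (hz.prodMk hω) (hW.prod (hcyl k u)), Measure.map_apply hz hW]
    have h2 := hfirst k u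
    have h3 : (ν.map ω) (cyl k u) = (∏ i ∈ Finset.range k, (N i : ENNReal))⁻¹ := h2
    rw [h3, mul_comm, ← hmain W hW k u]
    rfl

end Pool.Agent.TH612.CR
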